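import Pool.Agent.Helper92.FR.GoalsA

/-!
# FR, goal TRD: the density of the truncated exponential law is at most `1 + |a|`
-/

open MeasureTheory

namespace Pool.Agent.Helper5.FR

open Pool.Agent.Helper92.FR

lemma MM_zero : MM 0 = 1 := by
  simp [MM]

lemma MM_eq {a : ℝ} (ha : a ≠ 0) : MM a = (Real.exp a - 1) / a := by
  unfold MM
  have h := intervalIntegral.integral_comp_mul_left (f := Real.exp) (a := 0) (b := 1) ha
  rw [h, integral_exp]
  simp only [mul_one, mul_zero, Real.exp_zero, smul_eq_mul]
  field_simp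

theorem trd : TrdStmt := by
  intro a x hx0 hx1
  rcases lt_trichotomy a 0 with ha | ha | ha
  · have h1 : Real.exp (a * x) ≤ 1 := by
      rw [Real.exp_le_one_iff]
      exact mul_nonpos_of_nonpos_of_nonneg ha.le hx0
    have h2 : Real.exp a < 1 := Real.exp_lt_one_iff.2 ha
    have hM : 0 < MM a := by
      rw [MM_eq ha.ne]
      exact div_pos_of_neg_of_neg (by linarith) ha
    rw [div_le_iff₀ hM, MM_eq ha.ne, abs_of_neg ha]
    refine h1.trans ?_
    have h3 : Real.exp a * (1 + -a) ≤ 1 := by
      have h4 : 1 + -a ≤ Real.exp (-a) := by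
        have := Real.add_one_le_exp (-a)
        linarith
      calc Real.exp a * (1 + -a) ≤ Real.exp a * Real.exp (-a) :=
            mul_le_mul_of_nonneg_left h4 (Real.exp_pos a).le
        _ = 1 := by rw [← Real.exp_add]; simp
    rw [mul_div_assoc', le_div_iff_of_neg ha]
    nlinarith [h3]
  · subst ha
    simp [MM_zero]
  · have h1 : Real.exp (a * x) ≤ Real.exp a := by
      rw [Real.exp_le_exp]
      nlinarith
    have h2 : 1 < Real.exp a := Real.one_lt_exp_iff.2 ha
    have hM : 0 < MM a := by
      rw [MM_eq ha.ne']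
      exact div_pos (by linarith) ha
    rw [div_le_iff₀ hM, MM_eq ha.ne', abs_of_pos ha]
    refine h1.trans ?_
    rw [mul_div_assoc', le_div_iff₀ ha]
    have := Real.add_one_le_exp a
    nlinarith

end Pool.Agent.Helper5.FR
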