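import Pool.Agent.Helper92.FR.GoalsA

/-!
# FR, goal TRF: the characteristic function of the truncated exponential law
-/

open MeasureTheory

namespace Pool.Agent.Helper5.FR

open Pool.Agent.Helper92.FR

theorem trf (h0 : Tr0Stmt) : TrfStmt := by
  intro a s
  obtain ⟨hM, -, -, hint, -⟩ := h0 a
  have hM' : (MM a : ℂ) ≠ 0 := by exact_mod_cast hM.ne'
  rw [hint (fun x : ℝ => Complex.exp (Complex.I * s * x)) (by fun_prop), mul_div_cancel₀ _ hM']
  have e1 : (∫ x in (0 : ℝ)..1, Complex.exp (Complex.I * s * x) * (Real.exp (a * x) : ℂ)) =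
      ∫ x in (0 : ℝ)..1, Complex.exp ((a + Complex.I * s) * x) := by
    refine intervalIntegral.integral_congr fun x _ => ?_
    rw [Complex.ofReal_exp, ← Complex.exp_add]
    congr 1
    push_cast
    ring
  rw [e1]
  split_ifs with ha
  · have e2 := intervalIntegral.integral_comp_sub_left
      (f := fun x : ℝ => Complex.exp ((a + Complex.I * s) * x)) (a := 0) (b := 1) (1 : ℝ)
    simp only [sub_self, sub_zero] at e2
    rw [← e2, QQ, ← intervalIntegral.integral_const_mul]
    refine intervalIntegral.integral_congr fun x _ => ?_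
    rw [← Complex.exp_add]
    congr 1
    push_cast
    ring
  · rw [QQ]
    refine intervalIntegral.integral_congr fun x _ => ?_
    congr 1
    rw [abs_of_nonpos (not_lt.1 ha)]
    push_cast
    ring

end Pool.Agent.Helper5.FR
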